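import Pool.Agent.Q158.DDec

/-!
# MP_28dfab_co: a `P₆`-free poset that is not `d`-decomposable
-/

namespace Pool.Agent.Results.MP_28dfab_co.EightElements

open Q158.DDec

/-- There is a finite poset that contains no induced copy of `P₆` and is not
`d`-decomposable. -/
theorem result : ∃ (Q : Type) (_ : PartialOrder Q) (_ : Fintype Q),
    ¬ ContainsP6 Q ∧ ¬ DDecomposable Q :=
  result_aux

end Pool.Agent.Results.MP_28dfab_co.EightElements
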